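import Pool.Agent.TH941.HU.Calib5

set_option autoImplicit false
set_option linter.unusedSectionVars false

open MeasureTheory Set Metric Filter Topology
open scoped ENNReal Real
open Pool.Agent.TH304.MI Pool.Agent.TH703.HU

noncomputable section

namespace Pool.Agent.TH941.HU

/-- cutoff at the entry of the tail -/
def zf (q s : ℝ) (x : ℂ) : ℝ := th (150 * q * (x.re - s) + 1)

theorem zf_cd (q s : ℝ) : ContDiff ℝ 1 (zf q s) :=
  th_cd.comp ((contDiff_const.mul (re_cd.sub contDiff_const)).add contDiff_const)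

theorem zf_one {q s : ℝ} (hq : 0 < q) {x : ℂ} (hx : s ≤ x.re) : zf q s x = 1 := by
  apply th_one
  have : 0 ≤ 150 * q * (x.re - s) := mul_nonneg (by positivity) (by linarith)
  linarith

theorem zf_zero {q s : ℝ} {x : ℂ} (hx : 150 * q * (x.re - s) + 1 ≤ 0) : zf q s x = 0 :=
  th_zero hx

theorem zf_fd_one {q s : ℝ} (hq : 0 < q) {x : ℂ} (hx : s < x.re) : fderiv ℝ (zf q s) x = 0 := by
  have h1 : zf q s =ᶠ[𝓝 x] fun _ => 1 := by
    have : ∀ᶠ y : ℂ in 𝓝 x, s < y.re :=
      Complex.continuous_re.continuousAt.eventually_const_lt hx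
    filter_upwards [this] with y hy
    exact zf_one hq hy.le
  rw [h1.fderiv_eq]; simp

theorem zf_fd_zero {q s : ℝ} {x : ℂ} (hx : 150 * q * (x.re - s) + 1 < 0) :
    fderiv ℝ (zf q s) x = 0 := by
  have h1 : zf q s =ᶠ[𝓝 x] fun _ => 0 := by
    have c1 : Continuous (fun y : ℂ => 150 * q * (y.re - s) + 1) := by fun_prop
    have : ∀ᶠ y : ℂ in 𝓝 x, 150 * q * (y.re - s) + 1 < 0 :=
      c1.continuousAt.eventually_lt_const hx
    filter_upwards [this] with y hy
    exact zf_zero hy.le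
  rw [h1.fderiv_eq]; simp

theorem wt_cs (c0 : S_C0) {m : ℕ} (hm : 1 ≤ m) : HasCompactSupport (wt m) := by
  obtain ⟨-, -, hnn, -, hDD, -, -, -, -, -, -, -⟩ := c0 m hm
  refine HasCompactSupport.intro (K := closedBall (0 : ℂ) 1) (isCompact_closedBall _ _) ?_
  intro x hx
  have h1 : x ∉ DD := by
    intro hD
    apply hx
    have h2 : |x.re| + |x.im| < 1 := hD
    rw [mem_closedBall_zero_iff]
    exact (Complex.norm_le_abs_re_add_abs_im x).trans h2.le
  rw [← hDD] at h1
  exact le_antisymm (not_lt.1 h1) (hnn x)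

theorem XX_eq (x : ℂ) : XX x = aa x • ((1 : ℂ) + (125 / 6 : ℝ) • (x.im • Complex.I)) := by
  apply Complex.ext
  · simp [XX, ZZ]
  · simp [XX, ZZ, pp]

theorem D_XX (D : ℂ →L[ℝ] ℝ) (x : ℂ) :
    D (XX x) = aa x * (D 1 + 125 / 6 * D (x.im • Complex.I)) := by
  have e1 : D (aa x • ((1 : ℂ) + (125 / 6 : ℝ) • (x.im • Complex.I))) =
      aa x • D ((1 : ℂ) + (125 / 6 : ℝ) • (x.im • Complex.I)) := D.map_smul _ _
  have e2 : D ((1 : ℂ) + (125 / 6 : ℝ) • (x.im • Complex.I)) =
      D 1 + D ((125 / 6 : ℝ) • (x.im • Complex.I)) := D.map_add _ _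
  have e3 : D ((125 / 6 : ℝ) • (x.im • Complex.I)) = (125 / 6 : ℝ) • D (x.im • Complex.I) :=
    D.map_smul _ _
  rw [XX_eq, e1, e2, e3, smul_eq_mul, smul_eq_mul]

theorem c7 (c0 : S_C0) (c1 : S_C1) : S_C7 := by
  intro Λ hΛ
  refine ⟨⌈(20 * (Λ + 22)) ^ 2⌉₊ + 1, fun m hm v A hM hnull => ?_⟩
  have hm1 : 1 ≤ m := by omega
  obtain ⟨hN, hcont, hnn, -, hDD, hcd, -, -, -, -, -, -⟩ := c0 m hm1
  have hmR : (20 * (Λ + 22)) ^ 2 ≤ (m : ℝ) := by
    refine (Nat.le_ceil _).trans ?_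
    exact_mod_cast (by omega : ⌈(20 * (Λ + 22)) ^ 2⌉₊ ≤ m)
  set q : ℝ := √(m : ℝ) with hq
  have hqq : q * q = m := Real.mul_self_sqrt (Nat.cast_nonneg m)
  have hqL : 20 * (Λ + 22) ≤ q := Real.le_sqrt_of_sq_le hmR
  have hq0 : 0 < q := by linarith
  have hq440 : 440 ≤ q := by linarith
  set κ : ℝ := 1 / q with hκ
  have hκq : κ * q = 1 := by rw [hκ]; field_simp
  have hκ0 : 0 < κ := by positivity
  have hκ1 : κ ≤ 1 / 440 := by
    rw [hκ]
    exact one_div_le_one_div_of_le (by norm_num) hq440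
  have e20 : 1 / 20 / q = κ / 20 := by rw [hκ]; field_simp
  have e100 : 1 / 100 / q = κ / 100 := by rw [hκ]; field_simp
  rw [e20, e100] at hnull
  set s0 : ℝ := 1 / 2 + κ / 20 with hs0
  set B : Set ℂ := {x : ℂ | |x.re - s0| < κ / 100 ∧ |x.im| < 1 / 4} with hB
  have hform : ∀ x : ℂ, hf (s0 + 3 / 5) x = s0 + 3 / 5 - 125 / 12 * (x.im * x.im) - x.re :=
    fun _ => rfl
  have H1 : ∀ x, x ∉ B → 0 < hf (s0 + 3 / 5) x →
      fderiv ℝ (zf q s0) x = 0 ∧ (zf q s0 x = 0 ∨ zf q s0 x = 1) := by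
    intro x hxB hx
    rw [hform] at hx
    by_cases hr : s0 < x.re
    · exact ⟨zf_fd_one hq0 hr, Or.inr (zf_one hq0 hr.le)⟩
    · have key : x.re - s0 ≤ - (κ / 100) := by
        by_contra hc
        push Not at hc
        apply hxB
        refine ⟨?_, ?_⟩
        · rw [abs_lt]
          constructor
          · linarith
          · linarith [not_lt.1 hr]
        · have h1 : x.im * x.im < (1 / 4) ^ 2 := by nlinarith
          exact abs_lt_of_sq_lt_sq (by nlinarith) (by norm_num)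
      have h2 : 150 * q * (x.re - s0) + 1 < 0 := by
        have h3 : q * (x.re - s0) ≤ q * (-(κ / 100)) := mul_le_mul_of_nonneg_left key hq0.le
        nlinarith
      exact ⟨zf_fd_zero h2, Or.inl (zf_zero h2.le)⟩
  have H2 : ∀ x, 0 < hf (s0 + 3 / 5) x → 0 < zf q s0 x → 0 < wt m x →
      fderiv ℝ (wt m) x (XX x) ≤ 0 ∧
      (Λ + 1) * wt m x ≤ -(fderiv ℝ (wt m) x (XX x)) - wt m x * dv2 XX x := by
    intro x hx hz hw
    rw [hform] at hx
    have hxD : x ∈ DD := by rw [← hDD]; exact hw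
    have h1 : -(κ / 150) < x.re - s0 := by
      by_contra hc
      push Not at hc
      have h3 : q * (x.re - s0) ≤ q * (-(κ / 150)) := mul_le_mul_of_nonneg_left hc hq0.le
      have : zf q s0 x = 0 := zf_zero (by nlinarith)
      linarith
    set a : ℝ := x.re - 1 / 2 with ha
    have ha1 : κ / 25 ≤ a := by rw [ha]; linarith
    have ha0 : 0 < a := by linarith [div_pos hκ0 (by norm_num : (0 : ℝ) < 25)]
    have him : x.im * x.im < 59 / 1000 := by nlinarith
    have haa : 9 / 50 ≤ aa x := by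
      unfold aa
      have h2 : √(qq x) ≤ 50 / 9 := by
        rw [Real.sqrt_le_left (by norm_num)]
        unfold qq pp
        nlinarith
      have h3 := inv_anti₀ (sq_pos' x) h2
      norm_num at h3 ⊢
      exact h3
    have hD1 := wt_re c0 hm1 hxD (by linarith : 0 < x.re)
    have hD2 := wt_im c0 hm1 hxD
    have htail := wt_tail c0 hm1 hxD ha0 (by rw [ha]; ring)
    have hff : 8 / 25 * q * wt m x ≤ ff m a / NN m := by
      refine le_trans ?_ htail
      apply mul_le_mul_of_nonneg_right _ hw.le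
      have h4 : (m : ℝ) * (κ / 25) ≤ m * a := mul_le_mul_of_nonneg_left ha1 (Nat.cast_nonneg m)
      have h5 : (m : ℝ) * (κ / 25) = q / 25 := by
        rw [← hqq]
        calc q * q * (κ / 25) = q * (κ * q) / 25 := by ring
          _ = q / 25 := by rw [hκq, mul_one]
      nlinarith
    have hDX : fderiv ℝ (wt m) x (XX x) =
        aa x * (-(ff m a / NN m) + 125 / 6 * fderiv ℝ (wt m) x (x.im • Complex.I)) := by
      rw [D_XX, hD1]
      ring
    have hpos : 0 ≤ ff m a / NN m := le_trans (by positivity) hff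
    have haapos := aa_pos x
    have hE : aa x * (ff m a / NN m) ≤ -(fderiv ℝ (wt m) x (XX x)) := by
      rw [hDX]
      have := mul_nonneg haapos.le (neg_nonneg.2 hD2)
      nlinarith
    have hE2 : 9 / 50 * (8 / 25 * q * wt m x) ≤ aa x * (ff m a / NN m) :=
      mul_le_mul haa hff (by positivity) haapos.le
    refine ⟨?_, ?_⟩
    · have := mul_nonneg haapos.le hpos
      linarith
    · have h6 : wt m x * dv2 XX x ≤ wt m x * (125 / 6) :=
        mul_le_mul_of_nonneg_left (dv2_XX_le x) hw.le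
      have h7 : 20 * (Λ + 22) * wt m x ≤ q * wt m x := mul_le_mul_of_nonneg_right hqL hw.le
      nlinarith
  have hmain := null_of_calib hcont hnn (wt_cs c0 hm1) (by rw [hDD]; exact hcd)
    (hf_cd (s0 + 3 / 5)) (zf_cd q s0) XX_cd XX_norm (fun x => (sq_pos' x).le)
    (hf_fd (s0 + 3 / 5)) (fun x => th_nn _) (fun x => th_le _) H1 hΛ H2 hM hnull
  refine measure_mono_null ?_ hmain
  rintro x ⟨⟨hxA, hxD⟩, hxb⟩
  have hw : x ∈ {x | 0 < wt m x} := by rw [hDD]; exact hxD
  refine ⟨⟨hxA, ?_⟩, hw⟩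
  rw [mem_ball, dist_eq_norm] at hxb
  have h1 := (Complex.abs_re_le_norm (x - 1)).trans_lt hxb
  have h2 := (Complex.abs_im_le_norm (x - 1)).trans_lt hxb
  simp only [Complex.sub_re, Complex.one_re, Complex.sub_im, Complex.one_im, sub_zero] at h1 h2
  rw [abs_lt] at h1 h2
  have h3 : |x.re| + |x.im| < 1 := hxD
  have h4 : x.re < 1 := lt_of_le_of_lt (le_abs_self _) (by linarith [abs_nonneg x.im])
  refine ⟨?_, ?_⟩
  · rw [hform]
    have : x.im * x.im ≤ (1 / 20) ^ 2 := by nlinarith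
    nlinarith
  · exact zf_one hq0 (by rw [hs0]; linarith)

end Pool.Agent.TH941.HU
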