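import Pool.Agent.TH703.HU.Stm

set_option autoImplicit false

open MeasureTheory Set Metric Filter Topology
open scoped ENNReal Real
open Pool.Agent.TH304.MI Pool.Agent.TH703.HU

noncomputable section

namespace Pool.Agent.TH941.HU

/-- Product rule. -/
theorem dv2_smul (a : ℂ → ℝ) (Z : ℂ → ℂ) (x : ℂ) (ha : DifferentiableAt ℝ a x)
    (hZ : DifferentiableAt ℝ Z x) :
    dv2 (fun y => a y • Z y) x = a x * dv2 Z x + fderiv ℝ a x (Z x) := by
  unfold dv2
  rw [fderiv_fun_smul ha hZ]
  have h : fderiv ℝ a x (Z x) = (Z x).re * fderiv ℝ a x 1 + (Z x).im * fderiv ℝ a x Complex.I := by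
    have h1 : Z x = (Z x).re • (1 : ℂ) + (Z x).im • Complex.I := by
      apply Complex.ext <;> simp
    conv_lhs => rw [h1]
    rw [map_add, map_smul, map_smul]
    simp
  rw [h]
  simp
  ring

theorem dv2_sub (Y Z : ℂ → ℂ) (x : ℂ) (hY : DifferentiableAt ℝ Y x)
    (hZ : DifferentiableAt ℝ Z x) :
    dv2 (fun y => Y y - Z y) x = dv2 Y x - dv2 Z x := by
  unfold dv2
  rw [fderiv_fun_sub hY hZ]
  simp
  ring

theorem dv2_cont {Y : ℂ → ℂ} (h : ContDiff ℝ 1 Y) : Continuous (dv2 Y) := by
  unfold dv2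
  have h1 : Continuous (fderiv ℝ Y) := h.continuous_fderiv one_ne_zero
  exact (Complex.continuous_re.comp (h1.clm_apply continuous_const)).add
    (Complex.continuous_im.comp (h1.clm_apply continuous_const))

theorem dv2_cs {Y : ℂ → ℂ} (h : HasCompactSupport Y) : HasCompactSupport (dv2 Y) := by
  have h1 : HasCompactSupport (fderiv ℝ Y) := h.fderiv (𝕜 := ℝ)
  refine h1.comp_left (g := fun T : ℂ →L[ℝ] ℂ => (T 1).re + (T Complex.I).im) ?_
  simp

/-- The transition. -/
def th (t : ℝ) : ℝ := Real.smoothTransition t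

theorem th_cd : ContDiff ℝ 1 th := Real.smoothTransition.contDiff (n := 1)
theorem th_nn (t : ℝ) : 0 ≤ th t := Real.smoothTransition.nonneg t
theorem th_le (t : ℝ) : th t ≤ 1 := Real.smoothTransition.le_one t
theorem th_zero {t : ℝ} (h : t ≤ 0) : th t = 0 := Real.smoothTransition.zero_of_nonpos h
theorem th_one {t : ℝ} (h : 1 ≤ t) : th t = 1 := Real.smoothTransition.one_of_one_le h
theorem th_pos {t : ℝ} (h : 0 < t) : 0 < th t := Real.smoothTransition.pos_of_pos h
theorem th_mono : Monotone th := Real.smoothTransition.monotone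
theorem th_deriv (t : ℝ) : HasDerivAt th (deriv th t) t :=
  (th_cd.differentiable one_ne_zero t).hasDerivAt
theorem th_dnn (t : ℝ) : 0 ≤ deriv th t := th_mono.deriv_nonneg

end Pool.Agent.TH941.HU
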