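import Pool.Agent.TH941.HU.Calib

set_option autoImplicit false

open MeasureTheory Set Metric Filter Topology
open scoped ENNReal Real
open Pool.Agent.TH304.MI Pool.Agent.TH703.HU

noncomputable section

namespace Pool.Agent.TH941.HU

/-- Truncated weight. -/
def Wj (w : ℂ → ℝ) (j : ℝ) (x : ℂ) : ℝ := w x * th (j * w x - 1)

/-- Cutoff. -/
def ch (h ζ : ℂ → ℝ) (j : ℝ) (x : ℂ) : ℝ := th (j * h x) * ζ x

theorem Wj_nn {w : ℂ → ℝ} (hw0 : ∀ x, 0 ≤ w x) (j : ℝ) (x : ℂ) : 0 ≤ Wj w j x :=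
  mul_nonneg (hw0 x) (th_nn _)

theorem Wj_le {w : ℂ → ℝ} (hw0 : ∀ x, 0 ≤ w x) (j : ℝ) (x : ℂ) : Wj w j x ≤ w x :=
  mul_le_of_le_one_right (hw0 x) (th_le _)

theorem ch_nn {h ζ : ℂ → ℝ} (hζ0 : ∀ x, 0 ≤ ζ x) (j : ℝ) (x : ℂ) : 0 ≤ ch h ζ j x :=
  mul_nonneg (th_nn _) (hζ0 x)

theorem ch_le {h ζ : ℂ → ℝ} (hζ0 : ∀ x, 0 ≤ ζ x) (hζ1 : ∀ x, ζ x ≤ 1) (j : ℝ) (x : ℂ) :
    ch h ζ j x ≤ 1 :=
  mul_le_one₀ (th_le _) (hζ0 x) (hζ1 x)

theorem Wj_ev {w : ℂ → ℝ} (hwc : Continuous w) (hw0 : ∀ x, 0 ≤ w x) {j : ℝ} (hj : 0 < j) {x : ℂ}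
    (hx : ¬ 0 < w x) : ∀ᶠ y in 𝓝 x, Wj w j y = 0 := by
  have h0 : w x = 0 := le_antisymm (not_lt.1 hx) (hw0 x)
  have h1 : ∀ᶠ y in 𝓝 x, w y < 1 / j := by
    apply hwc.continuousAt.eventually_lt continuousAt_const
    rw [h0]; positivity
  filter_upwards [h1] with y hy
  have : j * w y - 1 ≤ 0 := by
    rw [lt_div_iff₀ hj] at hy
    linarith [mul_comm j (w y)]
  simp [Wj, th_zero this]

theorem Wj_cd {w : ℂ → ℝ} (hwc : Continuous w) (hw0 : ∀ x, 0 ≤ w x)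
    (hw1 : ContDiffOn ℝ 1 w {x | 0 < w x}) {j : ℝ} (hj : 0 < j) : ContDiff ℝ 1 (Wj w j) := by
  rw [contDiff_iff_contDiffAt]
  intro x
  by_cases hx : 0 < w x
  · have ho : IsOpen {x | 0 < w x} := isOpen_lt continuous_const hwc
    have h1 : ContDiffAt ℝ 1 w x := hw1.contDiffAt (ho.mem_nhds hx)
    unfold Wj
    exact h1.mul (th_cd.contDiffAt.comp x ((contDiffAt_const.mul h1).sub contDiffAt_const))
  · have h1 := Wj_ev hwc hw0 hj hx
    exact (contDiffAt_const (c := (0 : ℝ))).congr_of_eventuallyEq h1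

/-- The derivative of the truncated weight in a direction where `w` decreases. -/
theorem Wj_fd {w : ℂ → ℝ} (hwc : Continuous w) (hw0 : ∀ x, 0 ≤ w x)
    (hw1 : ContDiffOn ℝ 1 w {x | 0 < w x}) {j : ℝ} (hj : 0 < j) (x v : ℂ)
    (hv : 0 < w x → fderiv ℝ w x v ≤ 0) :
    (fderiv ℝ (Wj w j) x v = 0 ∧ ¬ 0 < w x) ∨
      (0 < w x ∧ fderiv ℝ (Wj w j) x v ≤ th (j * w x - 1) * fderiv ℝ w x v) := by
  by_cases hx : 0 < w x
  · right
    refine ⟨hx, ?_⟩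
    have ho : IsOpen {x | 0 < w x} := isOpen_lt continuous_const hwc
    have h1 : DifferentiableAt ℝ w x := (hw1.contDiffAt (ho.mem_nhds hx)).differentiableAt one_ne_zero
    have h2 : HasFDerivAt w (fderiv ℝ w x) x := h1.hasFDerivAt
    have h3 : HasFDerivAt (fun y => j * w y - 1) (j • fderiv ℝ w x) x :=
      (h2.const_mul j).sub_const 1
    have h4 : HasFDerivAt (fun y => th (j * w y - 1))
        (deriv th (j * w x - 1) • (j • fderiv ℝ w x)) x :=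
      (th_deriv (j * w x - 1)).comp_hasFDerivAt x h3
    have h5 := h2.mul h4
    have h6 : fderiv ℝ (Wj w j) x = w x • (deriv th (j * w x - 1) • (j • fderiv ℝ w x)) +
      th (j * w x - 1) • fderiv ℝ w x := h5.fderiv
    rw [h6]
    have h7 : 0 ≤ w x * (deriv th (j * w x - 1) * j) :=
      mul_nonneg hx.le (mul_nonneg (th_dnn _) hj.le)
    have h8 := mul_nonneg h7 (neg_nonneg.2 (hv hx))
    simp only [_root_.add_apply, _root_.smul_apply, smul_eq_mul]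
    nlinarith [h8]
  · left
    refine ⟨?_, hx⟩
    have h1 : Wj w j =ᶠ[𝓝 x] fun _ => 0 := Wj_ev hwc hw0 hj hx
    rw [h1.fderiv_eq]
    simp

/-- The comparison field. -/
def Yj (w h ζ : ℂ → ℝ) (X Y1 : ℂ → ℂ) (j : ℝ) (x : ℂ) : ℂ :=
  (1 - ch h ζ j x) • Y1 x - (ch h ζ j x * Wj w j x) • X x

section
variable {w : ℂ → ℝ} (hwc : Continuous w) (hw0 : ∀ x, 0 ≤ w x) (hws : HasCompactSupport w)
    (hw1 : ContDiffOn ℝ 1 w {x | 0 < w x})
    {h ζ : ℂ → ℝ} {X : ℂ → ℂ} {N : ℂ → ℝ} (hh : ContDiff ℝ 1 h) (hζ : ContDiff ℝ 1 ζ)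
    (hX : ContDiff ℝ 1 X)
    (hXn : ∀ x, ‖X x‖ = 1) (hN : ∀ x, 0 ≤ N x)
    (hhX : ∀ x v, fderiv ℝ h x v = -(N x * ((X x).re * v.re + (X x).im * v.im)))
    (hζ0 : ∀ x, 0 ≤ ζ x) (hζ1 : ∀ x, ζ x ≤ 1) {B : Set ℂ}
    (H1 : ∀ x, x ∉ B → 0 < h x → fderiv ℝ ζ x = 0 ∧ (ζ x = 0 ∨ ζ x = 1))
    {L : ℝ} (hL : 0 ≤ L)
    (H2 : ∀ x, 0 < h x → 0 < ζ x → 0 < w x → fderiv ℝ w x (X x) ≤ 0 ∧
      L * w x ≤ -(fderiv ℝ w x (X x)) - w x * dv2 X x)

include hh hζ in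
theorem ch_cd (j : ℝ) : ContDiff ℝ 1 (ch h ζ j) :=
  (th_cd.comp (contDiff_const.mul hh)).mul hζ

include hwc hw0 hws hw1 hh hζ hX hXn hζ0 hζ1 in
theorem Yj_TW {Y1 : ℂ → ℂ} (hY : TW w Y1) {j : ℝ} (hj : 0 < j) : TW w (Yj w h ζ X Y1 j) := by
  have c1 := ch_cd hh hζ j
  have c2 := Wj_cd hwc hw0 hw1 hj
  refine ⟨?_, ?_, ?_, ?_⟩
  · exact ((contDiff_const.sub c1).smul hY.cd).sub ((c1.mul c2).smul hX)
  · refine HasCompactSupport.intro (K := tsupport Y1 ∪ tsupport w)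
      (hY.cs.isCompact.union hws.isCompact) ?_
    intro x hx
    simp only [mem_union, not_or] at hx
    have e1 : Y1 x = 0 := image_eq_zero_of_notMem_tsupport hx.1
    have e2 : w x = 0 := image_eq_zero_of_notMem_tsupport hx.2
    simp [Yj, Wj, e1, e2]
  · have K : IsClosed (tsupport Y1 ∪ {x | 1 / j ≤ w x}) :=
      (isClosed_tsupport Y1).union (isClosed_le continuous_const hwc)
    have h1 : tsupport (Yj w h ζ X Y1 j) ⊆ tsupport Y1 ∪ {x | 1 / j ≤ w x} := by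
      apply closure_minimal _ K
      intro x hx
      by_contra hc
      simp only [mem_union, mem_setOf_eq, not_or, not_le] at hc
      apply hx
      have e1 : Y1 x = 0 := image_eq_zero_of_notMem_tsupport hc.1
      have e2 : Wj w j x = 0 := by
        have : j * w x - 1 ≤ 0 := by
          have := hc.2
          rw [lt_div_iff₀ hj] at this
          linarith [mul_comm j (w x)]
        simp [Wj, th_zero this]
      simp [Yj, e1, e2]
    refine h1.trans (union_subset hY.sub ?_)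
    intro x hx
    have : 0 < 1 / j := by positivity
    exact lt_of_lt_of_le this hx
  · intro x
    have b1 := ch_nn (h := h) hζ0 j x
    have b2 := ch_le (h := h) hζ0 hζ1 j x
    have b3 := Wj_nn hw0 j x
    have b4 := Wj_le hw0 j x
    have b5 := hY.le x
    calc ‖Yj w h ζ X Y1 j x‖ ≤ ‖(1 - ch h ζ j x) • Y1 x‖ + ‖(ch h ζ j x * Wj w j x) • X x‖ :=
          norm_sub_le _ _
      _ = (1 - ch h ζ j x) * ‖Y1 x‖ + ch h ζ j x * Wj w j x := by
          rw [norm_smul, norm_smul, hXn x, Real.norm_of_nonneg (by linarith),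
            Real.norm_of_nonneg (mul_nonneg b1 b3), mul_one]
      _ ≤ (1 - ch h ζ j x) * w x + ch h ζ j x * w x := by
          apply add_le_add
          · exact mul_le_mul_of_nonneg_left b5 (by linarith)
          · exact mul_le_mul_of_nonneg_left b4 b1
      _ = w x := by ring

include hwc hw0 hw1 hh hζ hX in
theorem Yj_dv {Y1 : ℂ → ℂ} (hY : TW w Y1) {j : ℝ} (hj : 0 < j) (x : ℂ) :
    dv2 (Yj w h ζ X Y1 j) x = (1 - ch h ζ j x) * dv2 Y1 x
      - fderiv ℝ (ch h ζ j) x (Y1 x + Wj w j x • X x)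
      - ch h ζ j x * (fderiv ℝ (Wj w j) x (X x) + Wj w j x * dv2 X x) := by
  have c1 := (ch_cd hh hζ j).differentiable one_ne_zero x
  have c2 := (Wj_cd hwc hw0 hw1 hj).differentiable one_ne_zero x
  have c3 := hX.differentiable one_ne_zero x
  have c4 := hY.cd.differentiable one_ne_zero x
  have d0 : DifferentiableAt ℝ (fun x => 1 - ch h ζ j x) x := c1.const_sub 1
  have d1 : DifferentiableAt ℝ (fun x => (1 - ch h ζ j x) • Y1 x) x := d0.smul c4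
  have d00 : DifferentiableAt ℝ (fun x => ch h ζ j x * Wj w j x) x := c1.mul c2
  have d2 : DifferentiableAt ℝ (fun x => (ch h ζ j x * Wj w j x) • X x) x := d00.smul c3
  have e0 : dv2 (Yj w h ζ X Y1 j) x = dv2 (fun x => (1 - ch h ζ j x) • Y1 x) x -
    dv2 (fun x => (ch h ζ j x * Wj w j x) • X x) x := dv2_sub _ _ x d1 d2
  rw [e0, dv2_smul (fun x => 1 - ch h ζ j x) Y1 x d0 c4,
    dv2_smul (fun x => ch h ζ j x * Wj w j x) X x d00 c3]
  have e1 : fderiv ℝ (fun x => 1 - ch h ζ j x) x = - fderiv ℝ (ch h ζ j) x := by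
    rw [fderiv_const_sub]
  have e2 : fderiv ℝ (fun x => ch h ζ j x * Wj w j x) x =
      ch h ζ j x • fderiv ℝ (Wj w j) x + Wj w j x • fderiv ℝ (ch h ζ j) x := fderiv_fun_mul c1 c2
  rw [e1, e2]
  simp only [_root_.neg_apply, _root_.add_apply,
    _root_.smul_apply, smul_eq_mul, map_add, map_smul]
  ring

end

end Pool.Agent.TH941.HU
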