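import Pool.Agent.TH941.HU.Calib2

set_option autoImplicit false
set_option linter.unusedSectionVars false

open MeasureTheory Set Metric Filter Topology
open scoped ENNReal Real
open Pool.Agent.TH304.MI Pool.Agent.TH703.HU

noncomputable section

namespace Pool.Agent.TH941.HU

section
variable {w : ℂ → ℝ} (hwc : Continuous w) (hw0 : ∀ x, 0 ≤ w x) (hws : HasCompactSupport w)
    (hw1 : ContDiffOn ℝ 1 w {x | 0 < w x})
    {h ζ : ℂ → ℝ} {X : ℂ → ℂ} {N : ℂ → ℝ} (hh : ContDiff ℝ 1 h) (hζ : ContDiff ℝ 1 ζ)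
    (hX : ContDiff ℝ 1 X)
    (hXn : ∀ x, ‖X x‖ = 1) (hN : ∀ x, 0 ≤ N x)
    (hhX : ∀ x v, fderiv ℝ h x v = -(N x * ((X x).re * v.re + (X x).im * v.im)))
    (hζ0 : ∀ x, 0 ≤ ζ x) (hζ1 : ∀ x, ζ x ≤ 1) {B : Set ℂ}
    (H1 : ∀ x, x ∉ B → 0 < h x → fderiv ℝ ζ x = 0 ∧ (ζ x = 0 ∨ ζ x = 1))
    {L : ℝ} (hL : 0 ≤ L)
    (H2 : ∀ x, 0 < h x → 0 < ζ x → 0 < w x → fderiv ℝ w x (X x) ≤ 0 ∧
      L * w x ≤ -(fderiv ℝ w x (X x)) - w x * dv2 X x)

include hw0 hh hζ hXn hN hhX hζ0 H1 in
theorem ch_fd {Y1 : ℂ → ℂ} (hY : TW w Y1) {j : ℝ} (hj : 0 < j) {x : ℂ} (hxB : x ∉ B)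
    (hW : Y1 x ≠ 0 → Wj w j x = w x) :
    fderiv ℝ (ch h ζ j) x (Y1 x + Wj w j x • X x) ≤ 0 := by
  set v : ℂ := Y1 x + Wj w j x • X x with hv
  have h2 : HasFDerivAt h (fderiv ℝ h x) x := (hh.differentiable one_ne_zero x).hasFDerivAt
  have h3 : HasFDerivAt (fun y => j * h y) (j • fderiv ℝ h x) x := h2.const_mul j
  have h4 : HasFDerivAt (fun y => th (j * h y)) (deriv th (j * h x) • (j • fderiv ℝ h x)) x :=
    (th_deriv (j * h x)).comp_hasFDerivAt x h3
  have h5 : HasFDerivAt ζ (fderiv ℝ ζ x) x := (hζ.differentiable one_ne_zero x).hasFDerivAt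
  have h6 : fderiv ℝ (ch h ζ j) x = th (j * h x) • fderiv ℝ ζ x +
    ζ x • (deriv th (j * h x) • (j • fderiv ℝ h x)) := (h4.mul h5).fderiv
  have h7 : th (j * h x) • fderiv ℝ ζ x = 0 := by
    by_cases hp : 0 < h x
    · rw [(H1 x hxB hp).1, smul_zero]
    · rw [th_zero (mul_nonpos_of_nonneg_of_nonpos hj.le (not_lt.1 hp)), zero_smul]
  have h8 : 0 ≤ (X x).re * v.re + (X x).im * v.im := by
    have e1 : (X x).re * (X x).re + (X x).im * (X x).im = 1 := by
      have h' : ‖X x‖ ^ 2 = Complex.normSq (X x) := Complex.sq_norm _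
      rw [hXn x, Complex.normSq_apply] at h'
      linarith
    have e2 := Complex.abs_re_le_norm ((starRingEnd ℂ) (X x) * Y1 x)
    rw [norm_mul, Complex.norm_conj, hXn x, one_mul] at e2
    simp only [Complex.mul_re, Complex.conj_re, Complex.conj_im] at e2
    have e3 := (abs_le.1 e2).1
    have e4 : ‖Y1 x‖ ≤ Wj w j x := by
      by_cases hy : Y1 x = 0
      · rw [hy, norm_zero]; exact Wj_nn hw0 j x
      · rw [hW hy]; exact hY.le x
    have e5 : v.re = (Y1 x).re + Wj w j x * (X x).re := by simp [hv]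
    have e6 : v.im = (Y1 x).im + Wj w j x * (X x).im := by simp [hv]
    have e7 : (X x).re * v.re + (X x).im * v.im =
        ((X x).re * (Y1 x).re - -(X x).im * (Y1 x).im) +
          Wj w j x * ((X x).re * (X x).re + (X x).im * (X x).im) := by
      rw [e5, e6]; ring
    rw [e7, e1]
    linarith
  rw [h6, h7, zero_add]
  simp only [_root_.smul_apply, smul_eq_mul]
  rw [hhX x v]
  have h9 : 0 ≤ ζ x * (deriv th (j * h x) * (j * (N x * ((X x).re * v.re + (X x).im * v.im)))) :=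
    mul_nonneg (hζ0 x) (mul_nonneg (th_dnn _) (mul_nonneg hj.le (mul_nonneg (hN x) h8)))
  nlinarith [h9]

include hwc hw0 hw1 hh hζ hX hXn hN hhX hζ0 hζ1 H1 H2 in
theorem point {Y1 : ℂ → ℂ} (hY : TW w Y1) {j : ℝ} (hj : 0 < j) {x : ℂ} (hxB : x ∉ B)
    (hW : Y1 x ≠ 0 → Wj w j x = w x) :
    (1 - ch h ζ j x) * dv2 Y1 x + L * (ch h ζ j x * Wj w j x) ≤ dv2 (Yj w h ζ X Y1 j) x := by
  rw [Yj_dv hwc hw0 hw1 hh hζ hX hY hj x]
  have a1 := ch_fd hw0 hh hζ hXn hN hhX hζ0 H1 hY hj hxB hW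
  have b1 := ch_nn (h := h) hζ0 j x
  have a2 : L * (ch h ζ j x * Wj w j x) ≤
      - (ch h ζ j x * (fderiv ℝ (Wj w j) x (X x) + Wj w j x * dv2 X x)) := by
    by_cases hc : ch h ζ j x = 0
    · rw [hc]; simp
    have hp : 0 < h x := by
      by_contra hp
      apply hc
      unfold ch
      rw [th_zero (mul_nonpos_of_nonneg_of_nonpos hj.le (not_lt.1 hp)), zero_mul]
    have hz : 0 < ζ x := by
      apply lt_of_le_of_ne (hζ0 x)
      intro h0
      apply hc
      unfold ch
      rw [← h0, mul_zero]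
    rcases Wj_fd hwc hw0 hw1 hj x (X x) (fun hw => (H2 x hp hz hw).1) with ⟨e1, e2⟩ | ⟨e1, e2⟩
    · have e3 : w x = 0 := le_antisymm (not_lt.1 e2) (hw0 x)
      simp [e1, Wj, e3]
    · have e3 := (H2 x hp hz e1).2
      have e4 := th_nn (j * w x - 1)
      have e5 : L * Wj w j x ≤ -(fderiv ℝ (Wj w j) x (X x) + Wj w j x * dv2 X x) := by
        have := mul_le_mul_of_nonneg_left e3 e4
        unfold Wj at e2 ⊢
        nlinarith
      have := mul_le_mul_of_nonneg_left e5 b1
      nlinarith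
  linarith

include hwc in
/-- For large `j` the truncated weight agrees with `w` on the support of `Y1`. -/
theorem j0 {Y1 : ℂ → ℂ} (hY : TW w Y1) : ∃ j0 : ℝ, ∀ j : ℝ, j0 ≤ j → ∀ x, Y1 x ≠ 0 →
    Wj w j x = w x := by
  obtain ⟨a, ha, hb⟩ := hY.cs.isCompact.exists_forall_le' (a := 0) hwc.continuousOn
    (fun x hx => hY.sub hx)
  refine ⟨2 / a, fun j hj x hx => ?_⟩
  have h1 : a ≤ w x := hb x (subset_tsupport _ hx)
  have h2 : 1 ≤ j * w x - 1 := by
    have h3 : 2 / a * a ≤ j * w x := mul_le_mul hj h1 ha.le (le_trans (by positivity) hj)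
    rw [div_mul_cancel₀ _ ha.ne'] at h3
    linarith
  simp [Wj, th_one h2]

include hwc hw0 hws hw1 hh hζ hX hXn hN hhX hζ0 hζ1 H1 hL H2 in
theorem calib {A : Set ℂ} (hA : MeasurableSet A) (hAB : volume (A ∩ B) = 0) {P : ℝ}
    (hP : PW w A P) :
    PW w (A \ {x | 0 < h x ∧ ζ x = 1}) (P - L * mu w (A ∩ {x | 0 < h x ∧ ζ x = 1})) := by
  intro Y1 hY
  set S : Set ℂ := {x | 0 < h x ∧ ζ x = 1} with hS
  have hSm : MeasurableSet S :=
    (measurableSet_lt measurable_const hh.continuous.measurable).inter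
      (measurableSet_eq_fun hζ.continuous.measurable measurable_const)
  have hwi : Integrable w := hwc.integrable_of_hasCompactSupport hws
  have hdc : Continuous (dv2 Y1) := dv2_cont hY.cd
  have hdi : Integrable (dv2 Y1) := hdc.integrable_of_hasCompactSupport (dv2_cs hY.cs)
  obtain ⟨j0, hj0⟩ := j0 hwc hY
  have haeB : ∀ᵐ x ∂(volume.restrict A), x ∉ B := by
    rw [ae_restrict_iff' hA]
    have := (measure_eq_zero_iff_ae_notMem).1 hAB
    filter_upwards [this] with x hx hxA hxB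
    exact hx ⟨hxA, hxB⟩
  set G : ℕ → ℂ → ℝ := fun n x => (1 - ch h ζ n x) * dv2 Y1 x + L * (ch h ζ n x * Wj w n x) with hG
  set G0 : ℂ → ℝ := fun x => Sᶜ.indicator (dv2 Y1) x + L * S.indicator w x with hG0
  have hGc : ∀ n : ℕ, 0 < n → Continuous (G n) := by
    intro n hn
    have c1 := (ch_cd hh hζ n).continuous
    have c2 := (Wj_cd hwc hw0 hw1 (Nat.cast_pos.2 hn : (0 : ℝ) < n)).continuous
    exact ((continuous_const.sub c1).mul hdc).add (continuous_const.mul (c1.mul c2))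
  have hGb : ∀ n : ℕ, ∀ x, ‖G n x‖ ≤ |dv2 Y1 x| + L * w x := by
    intro n x
    have b1 := ch_nn (h := h) hζ0 n x
    have b2 := ch_le (h := h) hζ0 hζ1 n x
    have b3 := Wj_nn hw0 n x
    have b4 := Wj_le hw0 n x
    rw [Real.norm_eq_abs, hG]
    refine (abs_add_le _ _).trans (add_le_add ?_ ?_)
    · rw [abs_mul, abs_of_nonneg (by linarith : 0 ≤ 1 - ch h ζ n x)]
      exact mul_le_of_le_one_left (abs_nonneg _) (by linarith)
    · rw [abs_of_nonneg (mul_nonneg hL (mul_nonneg b1 b3))]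
      refine mul_le_mul_of_nonneg_left ?_ hL
      calc _ ≤ 1 * Wj w n x := mul_le_mul_of_nonneg_right b2 b3
        _ ≤ w x := by rw [one_mul]; exact b4
  have hbi : Integrable (fun x => |dv2 Y1 x| + L * w x) := hdi.abs.add (hwi.const_mul L)
  have hlim : ∀ᵐ x ∂(volume.restrict A), Tendsto (fun n => G n x) atTop (𝓝 (G0 x)) := by
    filter_upwards [haeB] with x hxB
    have hnt : Tendsto (fun n : ℕ => (n : ℝ)) atTop atTop := tendsto_natCast_atTop_atTop
    by_cases hxS : x ∈ S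
    · have hx1 : 0 < h x := hxS.1
      have e1 : G0 x = L * w x := by
        simp [hG0, hxS]
      rw [e1]
      have e2 : ∀ᶠ n : ℕ in atTop, ch h ζ n x = 1 := by
        have : ∀ᶠ n : ℕ in atTop, 1 / h x ≤ (n : ℝ) := hnt.eventually_ge_atTop _
        filter_upwards [this] with n hn
        have : 1 ≤ (n : ℝ) * h x := by
          rwa [div_le_iff₀ hx1] at hn
        simp [ch, th_one this, hxS.2]
      by_cases hw : 0 < w x
      · have e3 : ∀ᶠ n : ℕ in atTop, Wj w n x = w x := by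
          have : ∀ᶠ n : ℕ in atTop, 2 / w x ≤ (n : ℝ) := hnt.eventually_ge_atTop _
          filter_upwards [this] with n hn
          have : 1 ≤ (n : ℝ) * w x - 1 := by
            rw [div_le_iff₀ hw] at hn
            linarith
          simp [Wj, th_one this]
        apply tendsto_const_nhds.congr'
        filter_upwards [e2, e3] with n h1 h2
        simp [hG, h1, h2]
      · have hw' : w x = 0 := le_antisymm (not_lt.1 hw) (hw0 x)
        apply tendsto_const_nhds.congr'
        filter_upwards [e2] with n h1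
        simp [hG, h1, Wj, hw']
    · have e1 : G0 x = dv2 Y1 x := by
        simp [hG0, hxS]
      rw [e1]
      have e2 : ∀ n : ℕ, ch h ζ n x = 0 := by
        intro n
        by_cases hp : 0 < h x
        · rcases (H1 x hxB hp).2 with h0 | h1
          · simp [ch, h0]
          · exact absurd ⟨hp, h1⟩ hxS
        · simp [ch, th_zero (mul_nonpos_of_nonneg_of_nonpos (Nat.cast_nonneg n) (not_lt.1 hp))]
      simp [hG, e2]
  have hL1 : Tendsto (fun n => ∫ x in A, G n x) atTop (𝓝 (∫ x in A, G0 x)) := by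
    apply tendsto_integral_filter_of_dominated_convergence (fun x => |dv2 Y1 x| + L * w x)
    · filter_upwards [eventually_gt_atTop 0] with n hn
      exact (hGc n hn).aestronglyMeasurable
    · exact Eventually.of_forall fun n => Eventually.of_forall fun x => hGb n x
    · exact hbi.integrableOn
    · exact hlim
  have hL2 : ∀ᶠ n : ℕ in atTop, ∫ x in A, G n x ≤ P := by
    have hnt : Tendsto (fun n : ℕ => (n : ℝ)) atTop atTop := tendsto_natCast_atTop_atTop
    filter_upwards [eventually_gt_atTop 0, hnt.eventually_ge_atTop j0] with n hn hn0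
    have hn' : (0 : ℝ) < n := Nat.cast_pos.2 hn
    have hT := Yj_TW hwc hw0 hws hw1 hh hζ hX hXn hζ0 hζ1 hY hn'
    refine le_trans ?_ (hP _ hT)
    apply integral_mono_ae
    · exact (hbi.mono' (hGc n hn).aestronglyMeasurable
        (Eventually.of_forall fun x => hGb n x)).integrableOn
    · exact ((dv2_cont hT.cd).integrable_of_hasCompactSupport (dv2_cs hT.cs)).integrableOn
    · filter_upwards [haeB] with x hxB
      exact point hwc hw0 hw1 hh hζ hX hXn hN hhX hζ0 hζ1 H1 H2 hY hn' hxB (hj0 n hn0 x)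
  have hL3 := le_of_tendsto hL1 hL2
  have hL4 : ∫ x in A, G0 x = (∫ x in A \ S, dv2 Y1 x) + L * mu w (A ∩ S) := by
    have i1 : Integrable (Sᶜ.indicator (dv2 Y1)) (volume.restrict A) :=
      (hdi.indicator hSm.compl).integrableOn
    have i2 : Integrable (fun x => L * S.indicator w x) (volume.restrict A) :=
      ((hwi.indicator hSm).const_mul L).integrableOn
    rw [hG0, integral_add i1 i2, integral_const_mul]
    congr 1
    · rw [setIntegral_indicator hSm.compl, sdiff_eq]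
    · unfold mu
      rw [setIntegral_indicator hSm]
  rw [hL4] at hL3
  linarith

end

end Pool.Agent.TH941.HU
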