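import Pool.Agent.TH941.HU.Calib3

set_option autoImplicit false
set_option linter.unusedSectionVars false

open MeasureTheory Set Metric Filter Topology
open scoped ENNReal Real
open Pool.Agent.TH304.MI Pool.Agent.TH703.HU

noncomputable section

namespace Pool.Agent.TH941.HU

theorem TW_zero {w : ℂ → ℝ} (hw0 : ∀ x, 0 ≤ w x) : TW w (fun _ => 0) := by
  refine ⟨contDiff_const, ?_, ?_, ?_⟩
  · exact HasCompactSupport.zero
  · have : tsupport (fun _ : ℂ => (0 : ℂ)) = ∅ := by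
      have := tsupport_eq_empty_iff (f := fun _ : ℂ => (0 : ℂ))
      exact this.2 rfl
    rw [this]; exact empty_subset _
  · intro x; simpa using hw0 x

theorem PW_nn {w : ℂ → ℝ} (hw0 : ∀ x, 0 ≤ w x) {A : Set ℂ} {C : ℝ} (h : PW w A C) : 0 ≤ C := by
  have := h _ (TW_zero hw0)
  have h2 : dv2 (fun _ : ℂ => (0 : ℂ)) = fun _ => 0 := by
    funext x; simp [dv2]
  rw [h2] at this
  simpa using this

theorem PW_empty (w : ℂ → ℝ) : PW w ∅ 0 := by
  intro Y _
  simp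

section
variable {w : ℂ → ℝ} (hwc : Continuous w) (hw0 : ∀ x, 0 ≤ w x) (hws : HasCompactSupport w)
    (hw1 : ContDiffOn ℝ 1 w {x | 0 < w x})
    {h ζ : ℂ → ℝ} {X : ℂ → ℂ} {N : ℂ → ℝ} (hh : ContDiff ℝ 1 h) (hζ : ContDiff ℝ 1 ζ)
    (hX : ContDiff ℝ 1 X)
    (hXn : ∀ x, ‖X x‖ = 1) (hN : ∀ x, 0 ≤ N x)
    (hhX : ∀ x v, fderiv ℝ h x v = -(N x * ((X x).re * v.re + (X x).im * v.im)))
    (hζ0 : ∀ x, 0 ≤ ζ x) (hζ1 : ∀ x, ζ x ≤ 1) {B : Set ℂ}
    (H1 : ∀ x, x ∉ B → 0 < h x → fderiv ℝ ζ x = 0 ∧ (ζ x = 0 ∨ ζ x = 1))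
    {Λ : ℝ} (hL : 0 ≤ Λ)
    (H2 : ∀ x, 0 < h x → 0 < ζ x → 0 < w x → fderiv ℝ w x (X x) ≤ 0 ∧
      (Λ + 1) * w x ≤ -(fderiv ℝ w x (X x)) - w x * dv2 X x)

include hwc hw0 hws hw1 hh hζ hX hXn hN hhX hζ0 hζ1 H1 hL H2 in
theorem null_of_calib {v : ℝ} {A : Set ℂ} (hM : MinW w Λ v A) (hAB : volume (A ∩ B) = 0) :
    volume (A ∩ {x | 0 < h x ∧ ζ x = 1} ∩ {x | 0 < w x}) = 0 := by
  set S : Set ℂ := {x | 0 < h x ∧ ζ x = 1} with hS
  have hSm : MeasurableSet S :=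
    (measurableSet_lt measurable_const hh.continuous.measurable).inter
      (measurableSet_eq_fun hζ.continuous.measurable measurable_const)
  have hwi : Integrable w := hwc.integrable_of_hasCompactSupport hws
  have hA := hM.meas
  have hsplit : mu w A = mu w (A ∩ S) + mu w (A \ S) := by
    unfold mu
    exact (integral_inter_add_sdiff hSm hwi.integrableOn).symm
  have hnn : ∀ T : Set ℂ, 0 ≤ mu w T := fun T => integral_nonneg hw0
  have step : ∀ P : ℝ, PW w A P → PW w A (P - mu w (A ∩ S)) := by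
    intro P hP
    have h1 := calib hwc hw0 hws hw1 hh hζ hX hXn hN hhX hζ0 hζ1 H1 (by linarith : 0 ≤ Λ + 1) H2
      hA hAB hP
    have h2 := hM.min (A \ S) _ (hA.diff hSm) (by
      have := hM.le
      have := hnn (A ∩ S)
      linarith) h1
    have h3 : P - (Λ + 1) * mu w (A ∩ S) + Λ * (mu w A - mu w (A \ S)) = P - mu w (A ∩ S) := by
      rw [hsplit]; ring
    rw [h3] at h2
    exact h2
  have hv : 0 ≤ v := (hnn A).trans hM.le
  have start : PW w A (0 + Λ * (mu w A - mu w ∅)) :=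
    hM.min ∅ 0 MeasurableSet.empty (by simpa [mu] using hv) (PW_empty w)
  set P0 := 0 + Λ * (mu w A - mu w ∅)
  have iter : ∀ k : ℕ, PW w A (P0 - k * mu w (A ∩ S)) := by
    intro k
    induction k with
    | zero => simpa using start
    | succ k ih =>
      have := step _ ih
      have e : P0 - ((k + 1 : ℕ) : ℝ) * mu w (A ∩ S) = P0 - k * mu w (A ∩ S) - mu w (A ∩ S) := by
        push_cast; ring
      rw [e]; exact this
  have hz : mu w (A ∩ S) ≤ 0 := by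
    by_contra hc
    push Not at hc
    obtain ⟨k, hk⟩ := exists_nat_gt (P0 / mu w (A ∩ S))
    have h1 := PW_nn hw0 (iter k)
    rw [div_lt_iff₀ hc] at hk
    linarith
  have hz' : ∫ x in A ∩ S, w x = 0 := le_antisymm hz (hnn _)
  have h5 := (setIntegral_eq_zero_iff_of_nonneg_ae (μ := volume) (s := A ∩ S) (f := w)
    (Eventually.of_forall hw0) hwi.integrableOn).1 hz'
  have h6 : ∀ᵐ x, x ∈ A ∩ S → w x = 0 := (ae_restrict_iff' (hA.inter hSm)).1 h5
  rw [measure_eq_zero_iff_ae_notMem]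
  filter_upwards [h6] with x hx hc
  have := hx hc.1
  have h7 : 0 < w x := hc.2
  linarith

end

/-! ### The concrete calibration -/

/-- slope -/
def pp (x : ℂ) : ℝ := 125 / 6 * x.im
def qq (x : ℂ) : ℝ := 1 + pp x * pp x
def aa (x : ℂ) : ℝ := (√(qq x))⁻¹
def ZZ (x : ℂ) : ℂ := ⟨1, pp x⟩
def XX (x : ℂ) : ℂ := aa x • ZZ x
def hf (s : ℝ) (x : ℂ) : ℝ := s - 125 / 12 * (x.im * x.im) - x.re

theorem qq_pos (x : ℂ) : 0 < qq x := by unfold qq; nlinarith [mul_self_nonneg (pp x)]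
theorem sq_pos' (x : ℂ) : 0 < √(qq x) := Real.sqrt_pos.2 (qq_pos x)
theorem aa_pos (x : ℂ) : 0 < aa x := inv_pos.2 (sq_pos' x)
theorem aa_le (x : ℂ) : aa x ≤ 1 := by
  unfold aa
  apply inv_le_one_of_one_le₀
  rw [Real.one_le_sqrt]
  unfold qq; nlinarith [mul_self_nonneg (pp x)]

theorem im_cd : ContDiff ℝ 1 (fun x : ℂ => x.im) := Complex.imCLM.contDiff
theorem re_cd : ContDiff ℝ 1 (fun x : ℂ => x.re) := Complex.reCLM.contDiff
theorem im_fd (x : ℂ) : HasFDerivAt (fun x : ℂ => x.im) Complex.imCLM x :=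
  Complex.imCLM.hasFDerivAt
theorem re_fd (x : ℂ) : HasFDerivAt (fun x : ℂ => x.re) Complex.reCLM x :=
  Complex.reCLM.hasFDerivAt

theorem pp_cd : ContDiff ℝ 1 pp := contDiff_const.mul im_cd
theorem pp_fd (x : ℂ) : HasFDerivAt pp ((125 / 6 : ℝ) • Complex.imCLM) x :=
  (im_fd x).const_mul (125 / 6)
theorem qq_cd : ContDiff ℝ 1 qq := contDiff_const.add (pp_cd.mul pp_cd)
theorem qq_fd (x : ℂ) : HasFDerivAt qq (pp x • ((125 / 6 : ℝ) • Complex.imCLM) +
    pp x • ((125 / 6 : ℝ) • Complex.imCLM)) x := ((pp_fd x).mul (pp_fd x)).const_add 1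
theorem aa_cd : ContDiff ℝ 1 aa :=
  (qq_cd.sqrt fun x => (qq_pos x).ne').inv fun x => (sq_pos' x).ne'

theorem ZZ_eq : ZZ = fun x => (1 : ℂ) + pp x • Complex.I := by
  funext x
  apply Complex.ext <;> simp [ZZ]

theorem ZZ_cd : ContDiff ℝ 1 ZZ := by
  rw [ZZ_eq]
  exact contDiff_const.add (pp_cd.smul contDiff_const)

theorem XX_cd : ContDiff ℝ 1 XX := aa_cd.smul ZZ_cd

theorem XX_re (x : ℂ) : (XX x).re = aa x := by simp [XX, ZZ]
theorem XX_im (x : ℂ) : (XX x).im = aa x * pp x := by simp [XX, ZZ]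

theorem XX_norm (x : ℂ) : ‖XX x‖ = 1 := by
  have h1 : ‖XX x‖ ^ 2 = 1 := by
    rw [Complex.sq_norm, Complex.normSq_apply, XX_re, XX_im]
    have h2 : aa x * aa x * qq x = 1 := by
      unfold aa
      have h3 : √(qq x) * √(qq x) = qq x := Real.mul_self_sqrt (qq_pos x).le
      have h4 := (sq_pos' x).ne'
      field_simp
      nlinarith
    have : aa x * aa x + aa x * pp x * (aa x * pp x) = aa x * aa x * qq x := by
      unfold qq; ring
    rw [this, h2]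
  have h5 : 0 ≤ ‖XX x‖ := norm_nonneg _
  nlinarith

theorem dv2_ZZ (x : ℂ) : dv2 ZZ x = 125 / 6 := by
  have h1 : HasFDerivAt ZZ (((125 / 6 : ℝ) • Complex.imCLM).smulRight Complex.I) x := by
    rw [ZZ_eq]
    exact ((pp_fd x).smul_const Complex.I).const_add 1
  unfold dv2
  rw [h1.fderiv]
  simp

theorem aa_fd (x : ℂ) : fderiv ℝ aa x (ZZ x) ≤ 0 := by
  have h1 := (qq_fd x).sqrt (qq_pos x).ne'
  have h2 := (hasDerivAt_inv (sq_pos' x).ne').comp_hasFDerivAt x h1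
  have h3 : fderiv ℝ aa x = _ := h2.fderiv
  rw [h3]
  simp only [_root_.smul_apply, _root_.add_apply, smul_eq_mul, Complex.imCLM_apply]
  have e1 : (ZZ x).im = pp x := rfl
  rw [e1]
  have h4 : 0 ≤ (√(qq x) ^ 2)⁻¹ * (1 / (2 * √(qq x)) * (pp x * pp x)) := by
    have := mul_self_nonneg (pp x)
    have := sq_pos' x
    positivity
  nlinarith

theorem dv2_XX_le (x : ℂ) : dv2 XX x ≤ 125 / 6 := by
  have h1 := dv2_smul aa ZZ x (aa_cd.differentiable one_ne_zero x)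
    (ZZ_cd.differentiable one_ne_zero x)
  have h2 : dv2 XX x = aa x * dv2 ZZ x + fderiv ℝ aa x (ZZ x) := h1
  rw [h2, dv2_ZZ]
  have := aa_fd x
  have := aa_le x
  have := aa_pos x
  nlinarith

theorem hf_cd (s : ℝ) : ContDiff ℝ 1 (hf s) :=
  (contDiff_const.sub (contDiff_const.mul (im_cd.mul im_cd))).sub re_cd

theorem hf_fd (s : ℝ) (x v : ℂ) :
    fderiv ℝ (hf s) x v = -(√(qq x) * ((XX x).re * v.re + (XX x).im * v.im)) := by
  have h1 : HasFDerivAt (hf s) (-((125 / 12 : ℝ) • (x.im • Complex.imCLM + x.im • Complex.imCLM)) -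
      Complex.reCLM) x :=
    ((((im_fd x).mul (im_fd x)).const_mul (125 / 12)).const_sub s).sub (re_fd x)
  rw [h1.fderiv, XX_re, XX_im]
  have h2 : √(qq x) * aa x = 1 := mul_inv_cancel₀ (sq_pos' x).ne'
  have h3 : √(qq x) * (aa x * v.re + aa x * pp x * v.im) = (√(qq x) * aa x) * (v.re + pp x * v.im) := by
    ring
  rw [h3, h2]
  simp only [_root_.sub_apply, _root_.neg_apply, _root_.smul_apply, _root_.add_apply, smul_eq_mul,
    Complex.imCLM_apply, Complex.reCLM_apply]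
  unfold pp
  ring

end Pool.Agent.TH941.HU
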