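import Pool.Agent.TH941.HU.Calib4

set_option autoImplicit false
set_option linter.unusedSectionVars false

open MeasureTheory Set Metric Filter Topology
open scoped ENNReal Real
open Pool.Agent.TH304.MI Pool.Agent.TH703.HU

noncomputable section

namespace Pool.Agent.TH941.HU

theorem DD_open : IsOpen DD := by
  unfold DD
  exact isOpen_lt ((Complex.continuous_re.abs).add (Complex.continuous_im.abs)) continuous_const

/-- The kernel. -/
def ff (m : ℕ) (u : ℝ) : ℝ := (1 - 4 * u ^ 2) ^ m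

theorem ff_cont (m : ℕ) : Continuous (ff m) := by unfold ff; fun_prop

/-- derivative in the real direction -/
theorem wt_re (c0 : S_C0) {m : ℕ} (hm : 1 ≤ m) {x : ℂ} (hx : x ∈ DD) (hr : 0 < x.re) :
    fderiv ℝ (wt m) x 1 = -(ff m (x.re - 1 / 2)) / NN m := by
  obtain ⟨-, -, -, -, -, hcd, -, -, -, -, -, hform⟩ := c0 m hm
  have hd : DifferentiableAt ℝ (wt m) x :=
    (hcd.contDiffAt (DD_open.mem_nhds hx)).differentiableAt one_ne_zero
  have h1 : HasDerivAt (fun t : ℝ => wt m (x + t • (1 : ℂ))) (fderiv ℝ (wt m) x 1) 0 :=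
    hd.hasFDerivAt.hasLineDerivAt 1
  set b : ℝ := 1 / 2 - |x.im|
  have h2 : HasDerivAt (fun t : ℝ => (-∫ u in b..(x.re + t - 1 / 2), ff m u) / NN m)
      (-(ff m (x.re - 1 / 2)) / NN m) 0 := by
    have e1 : HasDerivAt (fun t : ℝ => x.re + t - 1 / 2) 1 0 :=
      ((hasDerivAt_id (0 : ℝ)).const_add x.re).sub_const (1 / 2)
    have e2 : HasDerivAt (fun y : ℝ => ∫ u in b..y, ff m u) (ff m (x.re + 0 - 1 / 2))
        (x.re + 0 - 1 / 2) := ((ff_cont m).integral_hasStrictDerivAt b _).hasDerivAt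
    have e3 := (e2.comp (0 : ℝ) e1).neg.div_const (NN m)
    simpa using e3
  have h3 : (fun t : ℝ => wt m (x + t • (1 : ℂ))) =ᶠ[𝓝 0]
      (fun t : ℝ => (-∫ u in b..(x.re + t - 1 / 2), ff m u) / NN m) := by
    have c1 : Continuous (fun t : ℝ => x + t • (1 : ℂ)) := by fun_prop
    have c2 : ∀ᶠ t : ℝ in 𝓝 0, x + t • (1 : ℂ) ∈ DD := by
      apply c1.continuousAt.eventually_mem
      simpa using DD_open.mem_nhds hx
    have c3 : ∀ᶠ t : ℝ in 𝓝 0, 0 < x.re + t := by
      have : Continuous (fun t : ℝ => x.re + t) := by fun_prop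
      exact this.continuousAt.eventually_const_lt (by simpa using hr)
    filter_upwards [c2, c3] with t ht1 ht2
    rw [hform _ ht1]
    have e1 : (x + t • (1 : ℂ)).re = x.re + t := by simp
    have e2 : (x + t • (1 : ℂ)).im = x.im := by simp
    rw [e1, e2, abs_of_pos ht2, intervalIntegral.integral_symm]
    rfl
  exact h1.unique (h2.congr_of_eventuallyEq h3)

/-- `w` decreases in the direction away from the real axis -/
theorem wt_im (c0 : S_C0) {m : ℕ} (hm : 1 ≤ m) {x : ℂ} (hx : x ∈ DD) :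
    fderiv ℝ (wt m) x (x.im • Complex.I) ≤ 0 := by
  obtain ⟨-, -, -, -, -, hcd, -, hsw, hneg, hneg2, hmono, -⟩ := c0 m hm
  have hd : DifferentiableAt ℝ (wt m) x :=
    (hcd.contDiffAt (DD_open.mem_nhds hx)).differentiableAt one_ne_zero
  have h1 : HasDerivAt (fun t : ℝ => wt m (x + t • (x.im • Complex.I)))
      (fderiv ℝ (wt m) x (x.im • Complex.I)) 0 :=
    hd.hasFDerivAt.hasLineDerivAt _
  have h2 := h1.tendsto_slope_zero_right
  apply le_of_tendsto h2
  filter_upwards [self_mem_nhdsWithin] with t ht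
  have ht' : (0 : ℝ) < t := ht
  have e0 : ∀ t : ℝ, x + t • (x.im • Complex.I) = ⟨x.re, x.im * (1 + t)⟩ := by
    intro t
    apply Complex.ext
    · simp
    · simp; ring
  have h3 : wt m (x + (0 + t) • (x.im • Complex.I)) ≤ wt m (x + (0 : ℝ) • (x.im • Complex.I)) := by
    rw [e0, e0, zero_add, add_zero, mul_one, hsw (x.im * (1 + t)) x.re, hsw x.im x.re]
    rcases le_total 0 x.im with hi | hi
    · exact hmono _ _ _ hi (by nlinarith)
    · rw [← hneg (x.im * (1 + t)), ← hneg x.im]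
      exact hmono _ _ _ (by linarith) (by nlinarith)
  rw [smul_eq_mul]
  exact mul_nonpos_of_nonneg_of_nonpos (by positivity) (by linarith)

/-- the tail estimate -/
theorem wt_tail (c0 : S_C0) {m : ℕ} (hm : 1 ≤ m) {x : ℂ} (hx : x ∈ DD) {a : ℝ} (ha : 0 < a)
    (hxa : x.re = 1 / 2 + a) : 8 * m * a * wt m x ≤ ff m a / NN m := by
  obtain ⟨hN, -, -, -, -, -, -, -, -, -, -, hform⟩ := c0 m hm
  rw [hform x hx]
  set b : ℝ := 1 / 2 - |x.im| with hb
  have e1 : |x.re| - 1 / 2 = a := by rw [abs_of_pos (by linarith), hxa]; ring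
  rw [e1]
  have hx' : |x.re| + |x.im| < 1 := hx
  have hab : a ≤ b := by
    rw [hb]
    linarith
  have hb2 : b ≤ 1 / 2 := by rw [hb]; linarith [abs_nonneg x.im]
  have h1 : ∫ u in a..b, (8 * m * u * (1 - 4 * u ^ 2) ^ (m - 1)) = ff m a - ff m b := by
    have h2 : ∀ u ∈ uIcc a b, HasDerivAt (fun u => - ff m u)
        (8 * m * u * (1 - 4 * u ^ 2) ^ (m - 1)) u := by
      intro u _
      have h3 : HasDerivAt (fun u : ℝ => 1 - 4 * u ^ 2) (-(4 * (2 * u))) u := by
        have := ((hasDerivAt_pow 2 u).const_mul 4).const_sub 1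
        simpa using this
      have h4 := (h3.fun_pow m).neg
      exact h4.congr_deriv (by ring)
    rw [intervalIntegral.integral_eq_sub_of_hasDerivAt h2
      (by apply Continuous.intervalIntegrable; fun_prop)]
    ring
  have h2 : 8 * m * a * ∫ u in a..b, ff m u ≤
      ∫ u in a..b, (8 * m * u * (1 - 4 * u ^ 2) ^ (m - 1)) := by
    rw [← intervalIntegral.integral_const_mul]
    apply intervalIntegral.integral_mono_on hab
    · exact (continuous_const.mul (ff_cont m)).intervalIntegrable _ _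
    · apply Continuous.intervalIntegrable; fun_prop
    · intro u hu
      have hu1 : a ≤ u := hu.1
      have hu2 : u ≤ 1 / 2 := hu.2.trans hb2
      have g1 : 0 ≤ 1 - 4 * u ^ 2 := by nlinarith
      have g2 : 1 - 4 * u ^ 2 ≤ 1 := by nlinarith
      have g3 : 0 ≤ (1 - 4 * u ^ 2) ^ (m - 1) := pow_nonneg g1 _
      have g4 : ff m u ≤ (1 - 4 * u ^ 2) ^ (m - 1) := by
        unfold ff
        exact pow_le_pow_of_le_one g1 g2 (by omega)
      have g5 : 0 ≤ ff m u := pow_nonneg g1 _
      have hm' : (0 : ℝ) ≤ m := Nat.cast_nonneg m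
      calc 8 * m * a * ff m u ≤ 8 * m * u * ff m u := by
            apply mul_le_mul_of_nonneg_right _ g5
            nlinarith
        _ ≤ _ := by
            have hu0 : 0 ≤ u := ha.le.trans hu1
            exact mul_le_mul_of_nonneg_left g4 (by positivity)
  have h3 : 0 ≤ ff m b := by
    unfold ff
    apply pow_nonneg
    nlinarith
  have h4 : (∫ u in a..b, (1 - 4 * u ^ 2) ^ m) = ∫ u in a..b, ff m u := rfl
  rw [h4, ← mul_div_assoc]
  apply div_le_div_of_nonneg_right _ hN.le
  linarith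

end Pool.Agent.TH941.HU
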